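import Pool.Agent.Lib.MP_39588e_an.Defs
import Pool.Agent.Lib.MP_39588e_an.Proof

/-!
Negative answer to Q1 of MP_39588e_an: there is a Frechet algebra of power series, properly
contained in `ℂ[[X_0, X_1, ...]]`, which carries a second Frechet algebra topology.

The proof (in `Pool.Agent.Lib.MP_39588e_an.*`) takes for `A` the algebra of all power series whose
degree one coefficients are bounded. For a linear functional `L` on `ℂ^ℕ` that kills all finitely
supported sequences and has `L((2^{-i})) = 1`, the map `D f = L((∂f/∂X_i)_i)` (applied
coefficientwise) is a derivation killing all `X_i`; the automorphism `exp(X_0^2 D)` of `A` fixes all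
polynomials but moves `∑ 2^{-i} X_i`, so it is discontinuous, and transporting the topology of `A`
along it gives a second Frechet algebra topology.
-/

namespace Pool.Agent.Results.MP_39588e_an.SecondTopology

open Pool.Agent.Lib.MP_39588e_an

/-- There are a proper subalgebra `A` of `ℂ[[X_0, X_1, ...]]` and topologies `τ`, `τ'` on `A` such
that `(A, τ)` is a Frechet algebra of power series and `τ'` is a Frechet algebra topology on `A`
different from `τ`. -/
theorem result : ∃ (A : Subalgebra ℂ Finf) (τ τ' : TopologicalSpace A),
    A ≠ ⊤ ∧ IsFrAPS A τ ∧ IsFrechetAlgebraTopology A τ' ∧ τ' ≠ τ :=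
  exists_second_topology

end Pool.Agent.Results.MP_39588e_an.SecondTopology
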